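import Pool.Agent.L0h58.HX.Stm
import Pool.Agent.L0h90.LT.One
import Pool.Agent.L0h32.LT.Asm

/-!
# An explicit function: the one-pass program (project HX, module STR, helper91)
-/

set_option autoImplicit false

namespace Pool.Agent.L0h91.HX

open Finset Polynomial Pool.Agent.L0h32.LT Pool.Agent.L0h58.HX

/-- the states -/
abbrev Vt (F : Type) : Type := F × F × (Fin 6 → F) × (Fin 6 → F) × F

section prog

variable {F : Type} [CommRing F]

/-- a step inside a block -/
def blk (i τ : ℕ) (v : Vt F) (b : Bool) : Vt F :=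
  if τ < 6 then (v.1, v.2.1, fun c => if (c : ℕ) = τ then v.1 * v.2.2.1 c + bv b else v.2.2.1 c,
    v.2.2.2.1, v.2.2.2.2)
  else if τ < 12 then (v.1, v.2.1, fun c => if (c : ℕ) + 6 = τ then v.2.2.1 c + bv b * v.2.1 else v.2.2.1 c,
    v.2.2.2.1, v.2.2.2.2)
  else if τ = 12 then (v.1, v.2.1, v.2.2.1, fun c => v.2.2.2.1 c + bv b * v.2.2.1 c, v.2.2.2.2)
  else (v.1, v.2.1, v.2.2.1, v.2.2.2.1, v.2.2.2.2 + bv b * v.1 ^ i)

/-- a step -/
def nxt (n p : ℕ) (v : Vt F) (b : Bool) : Vt F :=
  if p < n then (v.1, v.2.1 + bv b * v.1 ^ p, v.2.2)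
  else if (p - n) / 14 < n then blk ((p - n) / 14) ((p - n) % 14) v b
  else v

variable (z : F) (n : ℕ) (b : ℕ → Bool)

/-- the state after `p` steps -/
def run (p : ℕ) : Vt F := (List.range p).foldl (fun v p => nxt n p v (b p)) (z, 0, 0, 0, 0)

theorem run_succ (p : ℕ) : run z n b (p + 1) = nxt n p (run z n b p) (b p) := by
  unfold run
  rw [List.range_succ, List.foldl_append]
  rfl

theorem run_one (p : ℕ) (hp : p ≤ n) :
    run z n b p = (z, ∑ i ∈ range p, bv (b i) * z ^ i, 0, 0, 0) := by
  induction p with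
  | zero =>
    unfold run
    simp
  | succ p ih =>
    rw [run_succ, ih (by omega)]
    unfold nxt
    rw [if_pos (by omega), sum_range_succ]

/-- the partial target -/
def tg (i : ℕ) : F := ∑ j ∈ range i, bv (b (n + 14 * j + 13)) * z ^ j

/-- the windows inside a block -/
def wt (i τ : ℕ) (c : Fin 6) : F :=
  (if (c : ℕ) < τ then z * win z n b c i + bv (b (n + 14 * i + c)) else win z n b c i) +
    (if (c : ℕ) + 6 < τ then bv (b (n + 14 * i + 6 + c)) * pe z n b else 0)

theorem wt_zero (i : ℕ) : wt z n b i 0 = fun c : Fin 6 => win z n b c i := by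
  funext c
  unfold wt
  rw [if_neg (by omega), if_neg (by omega), add_zero]

theorem wt_last (i : ℕ) : wt z n b i 12 = fun c : Fin 6 => win z n b c (i + 1) := by
  funext c
  have hc := c.isLt
  unfold wt
  rw [if_pos (by omega), if_pos (by omega)]
  rfl

theorem blk_wt (i τ : ℕ) (hτ : τ < 12) (U : Fin 6 → F) (w : F) :
    blk i τ (z, pe z n b, wt z n b i τ, U, w) (b (n + 14 * i + τ)) =
      (z, pe z n b, wt z n b i (τ + 1), U, w) := by
  unfold blk
  by_cases h6 : τ < 6
  · rw [if_pos h6]
    have e : (fun c : Fin 6 => if (c : ℕ) = τ then z * wt z n b i τ c + bv (b (n + 14 * i + τ))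
        else wt z n b i τ c) = wt z n b i (τ + 1) := by
      funext c
      have hc := c.isLt
      unfold wt
      by_cases hcτ : (c : ℕ) = τ
      · rw [if_pos hcτ, if_neg (by omega), if_neg (by omega), if_pos (by omega), if_neg (by omega), hcτ,
          add_zero, add_zero]
      · rw [if_neg hcτ, if_neg (c := (c : ℕ) + 6 < τ) (by omega), if_neg (c := (c : ℕ) + 6 < τ + 1) (by omega)]
        by_cases h1 : (c : ℕ) < τ
        · rw [if_pos h1, if_pos (by omega)]
        · rw [if_neg h1, if_neg (by omega)]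
    exact congrArg (fun W => ((z, pe z n b, W, U, w) : Vt F)) e
  · rw [if_neg h6, if_pos hτ]
    have e : (fun c : Fin 6 => if (c : ℕ) + 6 = τ then wt z n b i τ c + bv (b (n + 14 * i + τ)) * pe z n b
        else wt z n b i τ c) = wt z n b i (τ + 1) := by
      funext c
      have hc := c.isLt
      unfold wt
      rw [if_pos (c := (c : ℕ) < τ) (by omega), if_pos (c := (c : ℕ) < τ + 1) (by omega)]
      by_cases hcτ : (c : ℕ) + 6 = τ
      · rw [if_pos hcτ, if_neg (by omega), if_pos (by omega), add_zero]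
        have e2 : n + 14 * i + τ = n + 14 * i + 6 + c := by omega
        rw [e2]
      · rw [if_neg hcτ]
        by_cases h1 : (c : ℕ) + 6 < τ
        · rw [if_pos h1, if_pos (by omega)]
        · rw [if_neg h1, if_neg (by omega)]
    exact congrArg (fun W => ((z, pe z n b, W, U, w) : Vt F)) e

theorem nxt_blk (i τ : ℕ) (hi : i < n) (hτ : τ < 14) (v : Vt F) (a : Bool) :
    nxt n (n + 14 * i + τ) v a = blk i τ v a := by
  unfold nxt
  have h1 : (n + 14 * i + τ - n) / 14 = i := by omega
  have h2 : (n + 14 * i + τ - n) % 14 = τ := by omega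
  rw [if_neg (by omega), h1, h2, if_pos hi]

theorem run_blk (i : ℕ) (hi : i ≤ n) : run z n b (n + 14 * i) =
    (z, pe z n b, fun c : Fin 6 => win z n b c i, fun c : Fin 6 => acc z n b c i, tg z n b i) := by
  induction i with
  | zero =>
    rw [Nat.mul_zero, Nat.add_zero, run_one z n b n le_rfl]
    have e1 : (fun c : Fin 6 => win z n b c 0) = (0 : Fin 6 → F) := rfl
    have e2 : (fun c : Fin 6 => acc z n b c 0) = (0 : Fin 6 → F) := rfl
    have e3 : tg z n b 0 = 0 := by
      unfold tg
      simp
    rw [e1, e2, e3]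
    rfl
  | succ i ih =>
    have ih' := ih (by omega)
    have h12 : ∀ τ, τ ≤ 12 → run z n b (n + 14 * i + τ) =
        (z, pe z n b, wt z n b i τ, fun c : Fin 6 => acc z n b c i, tg z n b i) := by
      intro τ
      induction τ with
      | zero =>
        intro _
        rw [Nat.add_zero, ih', wt_zero]
      | succ τ iht =>
        intro hτ
        rw [← Nat.add_assoc, run_succ, iht (by omega), nxt_blk n i τ (by omega) (by omega),
          blk_wt z n b i τ (by omega)]
    have e1 : n + 14 * (i + 1) = n + 14 * i + 12 + 1 + 1 := by ring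
    rw [e1, run_succ, run_succ, h12 12 le_rfl, wt_last]
    have e2 : n + 14 * i + 12 + 1 = n + 14 * i + 13 := rfl
    rw [e2, nxt_blk n i 13 (by omega) (by omega), nxt_blk n i 12 (by omega) (by omega)]
    have e3 : tg z n b (i + 1) = tg z n b i + bv (b (n + 14 * i + 13)) * z ^ i := by
      unfold tg
      rw [sum_range_succ]
    rw [e3]
    rfl

theorem run_end (p : ℕ) (hp : n + 14 * n ≤ p) : run z n b p = run z n b (n + 14 * n) := by
  induction p, hp using Nat.le_induction with
  | base => rfl
  | succ p hp ih =>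
    rw [run_succ, ih]
    unfold nxt
    rw [if_neg (by omega), if_neg]
    omega

/-- the value of a state -/
def val (v : Vt F) : F :=
  v.2.2.2.1 0 * v.2.2.2.1 3 + v.2.2.2.1 1 * v.2.2.2.1 4 + v.2.2.2.1 2 * v.2.2.2.1 5 - v.2.2.2.2

theorem val_run (p : ℕ) (hp : n + 14 * n ≤ p) : val (run z n b p) = vl z n b := by
  rw [run_end z n b p hp, run_blk z n b n le_rfl]
  rfl

end prog

section hom

variable {R S : Type} [CommRing R] [CommRing S] (φ : R →+* S) (z : R) (n : ℕ) (b : ℕ → Bool)

theorem map_bv (a : Bool) : φ (bv a) = bv a := by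
  unfold bv
  split_ifs
  · exact map_one φ
  · exact map_zero φ

theorem map_pe : φ (pe z n b) = pe (φ z) n b := by
  unfold pe
  rw [map_sum]
  refine sum_congr rfl fun i _ => ?_
  rw [map_mul, map_pow, map_bv]

theorem map_win (c i : ℕ) : φ (win z n b c i) = win (φ z) n b c i := by
  induction i with
  | zero => exact map_zero φ
  | succ i ih =>
    show φ (z * win z n b c i + bv (b (n + 14 * i + c)) + bv (b (n + 14 * i + 6 + c)) * pe z n b) =
      φ z * win (φ z) n b c i + bv (b (n + 14 * i + c)) + bv (b (n + 14 * i + 6 + c)) * pe (φ z) n b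
    rw [map_add, map_add, map_mul, map_mul, map_bv, map_bv, map_pe, ih]

theorem map_acc (c i : ℕ) : φ (acc z n b c i) = acc (φ z) n b c i := by
  induction i with
  | zero => exact map_zero φ
  | succ i ih =>
    show φ (acc z n b c i + bv (b (n + 14 * i + 12)) * win z n b c (i + 1)) =
      acc (φ z) n b c i + bv (b (n + 14 * i + 12)) * win (φ z) n b c (i + 1)
    rw [map_add, map_mul, map_bv, map_win, ih]

theorem map_tgt : φ (tgt z n b) = tgt (φ z) n b := by
  unfold tgt
  rw [map_sum]
  refine sum_congr rfl fun i _ => ?_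
  rw [map_mul, map_pow, map_bv]

theorem map_vl : φ (vl z n b) = vl (φ z) n b := by
  unfold vl
  rw [map_sub, map_add, map_add, map_mul, map_mul, map_mul, map_tgt]
  simp only [map_acc]

end hom

section deg

variable {K : Type} [Field K] (n : ℕ) (b : ℕ → Bool)

theorem deg_bv (a : Bool) : (bv a : K[X]).natDegree ≤ 0 := by
  unfold bv
  split_ifs <;> simp

theorem deg_term (a : Bool) (i : ℕ) : (bv a * X ^ i : K[X]).natDegree ≤ i := by
  refine natDegree_mul_le.trans ?_
  have h1 := deg_bv (K := K) a
  have h2 : (X ^ i : K[X]).natDegree ≤ i := natDegree_X_pow_le i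
  omega

theorem deg_pe : (pe (X : K[X]) n b).natDegree ≤ n := by
  unfold pe
  refine natDegree_sum_le_of_forall_le _ _ fun i hi => ?_
  rw [mem_range] at hi
  exact (deg_term _ i).trans hi.le

theorem deg_win (c i : ℕ) : (win (X : K[X]) n b c i).natDegree ≤ i + n := by
  induction i with
  | zero =>
    show (0 : K[X]).natDegree ≤ _
    simp
  | succ i ih =>
    show (X * win (X : K[X]) n b c i + bv (b (n + 14 * i + c)) +
      bv (b (n + 14 * i + 6 + c)) * pe (X : K[X]) n b).natDegree ≤ _
    have h1 : (X * win (X : K[X]) n b c i).natDegree ≤ i + 1 + n := by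
      refine natDegree_mul_le.trans ?_
      have : (X : K[X]).natDegree ≤ 1 := natDegree_X_le
      omega
    have h2 : (bv (b (n + 14 * i + c)) : K[X]).natDegree ≤ i + 1 + n := (deg_bv _).trans (Nat.zero_le _)
    have h3 : (bv (b (n + 14 * i + 6 + c)) * pe (X : K[X]) n b).natDegree ≤ i + 1 + n := by
      refine natDegree_mul_le.trans ?_
      have h4 := deg_bv (K := K) (b (n + 14 * i + 6 + c))
      have h5 := deg_pe (K := K) n b
      omega
    exact natDegree_add_le_of_degree_le (natDegree_add_le_of_degree_le h1 h2) h3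

theorem deg_acc (c i : ℕ) : (acc (X : K[X]) n b c i).natDegree ≤ i + n := by
  induction i with
  | zero =>
    show (0 : K[X]).natDegree ≤ _
    simp
  | succ i ih =>
    show (acc (X : K[X]) n b c i + bv (b (n + 14 * i + 12)) * win (X : K[X]) n b c (i + 1)).natDegree ≤ _
    have h1 : (acc (X : K[X]) n b c i).natDegree ≤ i + 1 + n := by omega
    have h3 : (bv (b (n + 14 * i + 12)) * win (X : K[X]) n b c (i + 1)).natDegree ≤ i + 1 + n := by
      refine natDegree_mul_le.trans ?_
      have h4 := deg_bv (K := K) (b (n + 14 * i + 12))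
      have h5 := deg_win (K := K) n b c (i + 1)
      omega
    exact natDegree_add_le_of_degree_le h1 h3

theorem deg_tgt : (tgt (X : K[X]) n b).natDegree ≤ n := by
  unfold tgt
  refine natDegree_sum_le_of_forall_le _ _ fun i hi => ?_
  rw [mem_range] at hi
  exact (deg_term _ i).trans hi.le

theorem deg_vl : (vl (X : K[X]) n b).natDegree ≤ 4 * n := by
  have h : ∀ c c' : ℕ, (acc (X : K[X]) n b c n * acc (X : K[X]) n b c' n).natDegree ≤ 4 * n := by
    intro c c'
    refine natDegree_mul_le.trans ?_
    have h1 := deg_acc (K := K) n b c n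
    have h2 := deg_acc (K := K) n b c' n
    omega
  unfold vl
  refine (natDegree_sub_le _ _).trans (max_le ?_ ?_)
  · exact natDegree_add_le_of_degree_le (natDegree_add_le_of_degree_le (h _ _) (h _ _)) (h _ _)
  · have := deg_tgt (K := K) n b
    omega

end deg

/-- the run over the input -/
theorem fold_run {F : Type} [CommRing F] (z : F) (n : ℕ) {N : ℕ} (y : Fin N → Bool) :
    (List.finRange N).foldl (fun v (i : Fin N) => nxt n (i : ℕ) v (y i)) (z, 0, 0, 0, 0) =
      run z n (bit y) N := by
  unfold run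
  have h1 : (List.finRange N).map (fun i : Fin N => (i : ℕ)) = List.range N := by
    apply List.ext_getElem
    · simp
    · intro i h1 h2
      simp
  rw [← h1, List.foldl_map]
  congr 1
  funext v i
  have h2 : bit y (i : ℕ) = y i := by
    unfold bit
    rw [dif_pos i.isLt]
  rw [h2]

/-- **STR.** -/
theorem t_STR : S_STR := by
  classical
  intro N hN
  obtain ⟨ρ, hρ⟩ : ∃ ρ, ρ = Nat.log 2 N := ⟨_, rfl⟩
  rw [← hρ]
  have hρ0 : ρ ≠ 0 := by
    rw [hρ]
    have : 0 < Nat.log 2 N := Nat.log_pos (by norm_num) (by omega)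
    omega
  have hlow : 2 ^ ρ ≤ N := by
    rw [hρ]
    exact Nat.pow_log_le_self 2 (by omega)
  have hup : N < 2 ^ (ρ + 1) := by
    rw [hρ]
    exact Nat.lt_pow_succ_log_self (by norm_num) N
  have hcF : Nat.card (GaloisField 2 ρ) = 2 ^ ρ := GaloisField.card 2 ρ hρ0
  have hfin : Finite (GaloisField 2 ρ) := by
    apply Nat.finite_of_card_ne_zero
    rw [hcF]
    positivity
  have : Fintype (GaloisField 2 ρ) := Fintype.ofFinite _
  have hcard : Fintype.card (GaloisField 2 ρ) = 2 ^ ρ := by
    rw [← Nat.card_eq_fintype_card]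
    exact hcF
  have hcB : Fintype.card (Fin ρ → Bool) = 2 ^ ρ := by
    simp
  let e : (Fin ρ → Bool) ≃ GaloisField 2 ρ := Fintype.equivOfCardEq (hcB.trans hcard.symm)
  refine ⟨Vt (GaloisField 2 ρ), inferInstance, fun ω => (e ω, 0, 0, 0, 0),
    fun i v b => nxt (N / 16) (i : ℕ) v b, fun v => val v ≠ 0, ?_, ?_⟩
  · have h1 : Nat.card (Vt (GaloisField 2 ρ)) = (2 ^ ρ) ^ 15 := by
      rw [Nat.card_prod, Nat.card_prod, Nat.card_prod, Nat.card_prod, Nat.card_fun, hcF, Nat.card_fin]
      ring
    rw [h1]
    exact Nat.pow_le_pow_left hlow 15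
  · intro y
    have hval : ∀ ω, val ((List.finRange N).foldl (fun v (i : Fin N) => nxt (N / 16) (i : ℕ) v (y i))
        (e ω, 0, 0, 0, 0)) = aeval (e ω) (vl (X : (ZMod 2)[X]) (N / 16) (bit y)) := by
      intro ω
      rw [fold_run, val_run _ _ _ _ (by omega)]
      have h2 := map_vl ((aeval (e ω) : (ZMod 2)[X] →ₐ[ZMod 2] GaloisField 2 ρ) :
        (ZMod 2)[X] →+* GaloisField 2 ρ) X (N / 16) (bit y)
      have h3 : ((aeval (e ω) : (ZMod 2)[X] →ₐ[ZMod 2] GaloisField 2 ρ) :
        (ZMod 2)[X] →+* GaloisField 2 ρ) X = e ω := aeval_X _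
      rw [h3] at h2
      exact h2.symm
    constructor
    · intro hf
      have hne : vl (X : (ZMod 2)[X]) (N / 16) (bit y) ≠ 0 := by
        unfold hard at hf
        exact of_decide_eq_true hf
      have h1 := Pool.Agent.L0h90.LT.card_zero (GaloisField 2 ρ) hne (deg_vl (N / 16) (bit y))
      have h2 : (univ.filter fun ω : Fin ρ → Bool => ¬ (val ((List.finRange N).foldl
          (fun v (i : Fin N) => nxt (N / 16) (i : ℕ) v (y i)) (e ω, 0, 0, 0, 0)) ≠ 0)).card ≤ 4 * (N / 16) := by
        refine le_trans ?_ h1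
        apply card_le_card_of_injOn (fun ω => e ω)
        · intro ω hω
          have h3 := (mem_filter.1 (mem_coe.1 hω)).2
          rw [not_not, hval] at h3
          rw [mem_coe, mem_filter]
          exact ⟨mem_univ _, h3⟩
        · intro a _ c _ hac
          exact e.injective hac
      have h3 := card_filter_add_card_filter_not (s := (univ : Finset (Fin ρ → Bool)))
        (fun ω => val ((List.finRange N).foldl
          (fun v (i : Fin N) => nxt (N / 16) (i : ℕ) v (y i)) (e ω, 0, 0, 0, 0)) ≠ 0)
      rw [card_univ, hcB] at h3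
      have h4 : Nat.card {ω : Fin ρ → Bool // val ((List.finRange N).foldl
          (fun v (i : Fin N) => nxt (N / 16) (i : ℕ) v (y i)) (e ω, 0, 0, 0, 0)) ≠ 0} =
          (univ.filter fun ω : Fin ρ → Bool => val ((List.finRange N).foldl
          (fun v (i : Fin N) => nxt (N / 16) (i : ℕ) v (y i)) (e ω, 0, 0, 0, 0)) ≠ 0).card := by
        rw [Nat.card_eq_fintype_card, Fintype.card_subtype]
      rw [h4]
      rw [pow_succ] at hup
      omega
    · intro hf ω
      have hne : vl (X : (ZMod 2)[X]) (N / 16) (bit y) = 0 := by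
        unfold hard at hf
        have h5 := of_decide_eq_false hf
        exact not_not.1 h5
      rw [not_not, hval, hne, map_zero]

end Pool.Agent.L0h91.HX
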